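import Pool.Agent.Helper67.R12.Sheet

set_option autoImplicit false

namespace Pool.Helper67.R12

open Pool.Agent.Helper97.RK (cur)
open Pool.Helper17.R8 (ek fI fJ)
open Pool.Helper34.R9 (Box)

namespace S95

theorem MM_pos : (0 : ℤ) < MM := by
  unfold MM
  exact mul_pos (by norm_num) (by exact_mod_cast Nat.factorial_pos QQ)

theorem mem_Box {m : ℕ} {T : Par} (h : T ∈ Box m) : (∀ i, T.1 i < m) ∧ T.2 < m ^ 3 := by
  unfold Box at h
  rw [Finset.mem_product, Fintype.mem_piFinset, Finset.mem_range] at h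
  exact ⟨fun i => Finset.mem_range.1 (h.1 i), h.2⟩

/-- a number `b + M a` with `|b| ≤ B`, `0 ≤ a ≤ m` -/
theorem aff_le {b M a m B : ℤ} (hM : 0 < M) (hm : 1 ≤ m) (ha : 0 ≤ a) (ha' : a ≤ m) (hB : |b| ≤ B) :
    |b + M * a| ≤ (B + M) * m := by
  refine (abs_add_le _ _).trans ?_
  rw [abs_mul, abs_of_pos hM, abs_of_nonneg ha]
  have hB0 : 0 ≤ B := (abs_nonneg b).trans hB
  nlinarith [mul_le_mul_of_nonneg_left ha' hM.le, mul_le_mul_of_nonneg_left hm hB0]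

theorem uu_le {m : ℕ} (hm : 1 ≤ m) (a : Fin 3 → ℕ) (ha : ∀ i, a i < m) (i : Fin 3) :
    |uu a i| ≤ (13 + MM) * (m : ℤ) := by
  have h1 : (1 : ℤ) ≤ (m : ℤ) := by exact_mod_cast hm
  have h2 : (a i : ℤ) ≤ (m : ℤ) := by exact_mod_cast (ha i).le
  have h3 : (0 : ℤ) ≤ (a i : ℤ) := Int.natCast_nonneg _
  have h4 : |ub i| ≤ 13 := by fin_cases i <;> decide
  exact aff_le MM_pos h1 h3 h2 h4

theorem ss_le (u : Fin 3 → ℤ) (K : ℤ) (h : ∀ i, |u i| ≤ K) (i : Fin 8) : |ss u i| ≤ 8 * K := by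
  have h0 := abs_le.1 (h 0)
  have h1 := abs_le.1 (h 1)
  have h2 := abs_le.1 (h 2)
  rw [abs_le]
  fin_cases i <;> simp [ss] <;> constructor <;> linarith [h0.1, h0.2, h1.1, h1.2, h2.1, h2.2]

end S95

/-- row BND -/
theorem st_BND (hREL : ST_REL) (hBD : Pool.Helper34.R9.ST_BD9) : ST_BND := by
  obtain ⟨M, hM⟩ : ∃ M : ℤ, M = MM := ⟨MM, rfl⟩
  have hM0 : 0 < M := hM ▸ S95.MM_pos
  set K : ℤ := 8 * (13 + M) with hK
  have hK1 : 1 ≤ K := by linarith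
  obtain ⟨C1, hC1, hB1⟩ := hBD K hK1
  set C2 : ℤ := K + C1 ^ 2 + (46 + M) ^ 2 with hC2
  have hC21 : 1 ≤ C2 := by nlinarith [sq_nonneg C1, sq_nonneg (46 + M)]
  obtain ⟨C3, hC3, hB3⟩ := hBD C2 hC21
  refine ⟨C3, hC3, ?_⟩
  intro m hm T hT
  obtain ⟨hT1, hT2⟩ := S95.mem_Box hT
  have hm1 : (1 : ℤ) ≤ (m : ℤ) := by exact_mod_cast hm
  have hs : ∀ i, |sa T.1 i| ≤ K * (m : ℤ) := by
    intro i
    have := S95.ss_le (uu T.1) _ (S95.uu_le hm T.1 hT1) i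
    rw [← hM] at this
    unfold sa
    calc |ss (uu T.1) i| ≤ 8 * ((13 + M) * (m : ℤ)) := this
      _ = K * (m : ℤ) := by rw [hK]; ring
  have hm6 : (0 : ℤ) ≤ (m : ℤ) ^ 6 := by positivity
  have h0 := hB1 m (sa T.1) 0 hm hs (by rw [abs_zero]; exact mul_nonneg (by linarith) hm6)
  have he3 := h0.1 3 (by norm_num)
  have hz : |zz T| ≤ (46 + M) * (m : ℤ) ^ 3 := by
    unfold zz
    rw [← hM]
    refine S95.aff_le hM0 (one_le_pow₀ hm1) (Int.natCast_nonneg _) ?_ (by norm_num)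
    exact_mod_cast hT2.le
  obtain ⟨h4t, -, hA, hB, -⟩ := hREL T
  have he3' : (ek (sa T.1) 3) ^ 2 ≤ C1 ^ 2 * (m : ℤ) ^ 6 := by
    rw [← sq_abs]
    calc |ek (sa T.1) 3| ^ 2 ≤ (C1 * (m : ℤ) ^ 3) ^ 2 := pow_le_pow_left₀ (abs_nonneg _) he3 2
      _ = _ := by ring
  have hz' : (zz T) ^ 2 ≤ (46 + M) ^ 2 * (m : ℤ) ^ 6 := by
    rw [← sq_abs]
    calc |zz T| ^ 2 ≤ ((46 + M) * (m : ℤ) ^ 3) ^ 2 := pow_le_pow_left₀ (abs_nonneg _) hz 2
      _ = _ := by ring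
  have ht : |tt T| ≤ C2 * (m : ℤ) ^ 6 := by
    have a1 := sq_nonneg (ek (sa T.1) 3)
    have a2 := sq_nonneg (zz T)
    have a3 : 0 ≤ K * (m : ℤ) ^ 6 := mul_nonneg (by linarith) hm6
    have a4 : C2 * (m : ℤ) ^ 6 = K * (m : ℤ) ^ 6 + C1 ^ 2 * (m : ℤ) ^ 6 +
      (46 + M) ^ 2 * (m : ℤ) ^ 6 := by rw [hC2]; ring
    rw [a4, abs_le]
    constructor <;> linarith
  have hs' : ∀ i, |sa T.1 i| ≤ C2 * (m : ℤ) := by
    intro i
    refine (hs i).trans (mul_le_mul_of_nonneg_right ?_ (by linarith))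
    nlinarith [sq_nonneg C1, sq_nonneg (46 + M)]
  obtain ⟨-, hI, hJ⟩ := hB3 m (sa T.1) (tt T) hm hs' ht
  constructor
  · have : |cA T| ≤ |fI (ek (sa T.1)) (tt T)| := by
      have h1 : |fI (ek (sa T.1)) (tt T)| = 48 * |cA T| := by
        rw [← abs_neg, ← hA, abs_mul]
        norm_num
      rw [h1]
      linarith [abs_nonneg (cA T)]
    exact this.trans hI
  · have : |cB T| ≤ |fJ (ek (sa T.1)) (tt T)| := by
      have h1 : |fJ (ek (sa T.1)) (tt T)| = 1728 * |cB T| := by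
        rw [← abs_neg, ← hB, abs_mul]
        norm_num
      rw [h1]
      linarith [abs_nonneg (cB T)]
    exact this.trans hJ

end Pool.Helper67.R12
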